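import Pool.Agent.H3.WSeqC

set_option autoImplicit false

namespace Pool.Agent.Results.MP_faea85_an.Exists

open Pool.Agent.H3.WSeq Filter Topology Classical

lemma not_hc : ¬ ∃ x : XX, Dense (Set.range fun n : ℕ => (TX ^ n) x) := by
  rintro ⟨x, hx⟩
  let e : XX := ⟨E 0, E_mem 0⟩
  haveI : Nontrivial XX := ⟨⟨e, 0, fun h => by
    have h1 := lower 0 (E 0) (E_mem 0) (by simp)
    have h2 : E 0 = 0 := congrArg inc h
    rw [h2] at h1
    norm_num at h1⟩⟩
  obtain ⟨_, ⟨m, rfl⟩, hm⟩ := hx.exists_dist_lt e (by norm_num : (0 : ℝ) < 1 / 4)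
  haveI : ∀ x : XX, NeBot (𝓝[≠] x) := fun x => Module.punctured_nhds_neBot ℝ XX x
  obtain ⟨_, ⟨⟨n, rfl⟩, hn⟩, h⟩ := (hx.sdiff_finite
    ((Set.finite_lt_nat m).image fun n : ℕ => (TX ^ n) x)).exists_dist_lt 0
    (by norm_num : (0 : ℝ) < 1 / 2)
  have hmn : m ≤ n := by
    by_contra hc
    exact hn ⟨n, not_le.mp hc, rfl⟩
  obtain ⟨d, rfl⟩ := Nat.exists_eq_add_of_le' hmn
  have h1 := lower d (inc ((TX ^ m) x)) ((TX ^ m) x).2 (by
    rw [dist_comm, dist_eq_norm, ← inc.norm_map, map_sub] at hm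
    exact hm)
  rw [← inc_pow, inc.norm_map] at h1
  simp only [dist_comm (0 : XX), dist_zero_right, pow_add] at h
  exact absurd h (not_lt.mpr h1)

lemma fin_mem (q : ℤ →₀ ℚ) : ∃ u : XX, Rep (inc u) fun j => q j :=
  ⟨⟨∑ j ∈ q.support, (q j : ℝ) • E j, X.sum_mem fun j _ => X.smul_mem _ (E_mem j)⟩,
    rep_fin q.support _ fun j hj => by simp [Finsupp.notMem_support_iff.mp hj]⟩

lemma dense_q (M : Set XX) (hM : IsClosed M)
    (h : ∀ (q : ℤ →₀ ℚ) (u : XX), Rep (inc u) (fun j => q j) → u ∈ M) : M = Set.univ := by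
  let D : Set Z := {u | ∃ q : ℤ →₀ ℚ, Rep u fun j => q j}
  have h1 : ∀ (c : ℝ) (u : Z), u ∈ closure D → c • u ∈ closure D := by
    intro c u hu
    refine Rat.denseRange_cast.induction_on (p := fun c : ℝ => c • u ∈ closure D) c
      (isClosed_closure.preimage (by fun_prop)) fun r => ?_
    refine map_mem_closure (f := fun u : Z => (r : ℝ) • u) (by fun_prop) hu ?_
    rintro v ⟨q, hq⟩
    refine ⟨r • q, ?_⟩
    convert hq.smul (r : ℝ) using 1
    funext j; simp
  let Y : Submodule ℝ Z :=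
    { carrier := closure D
      add_mem' := fun {a b} ha hb => map_mem_closure₂ continuous_add ha hb (by
        rintro v ⟨q, hq⟩ v' ⟨q', hq'⟩
        refine ⟨q + q', ?_⟩
        convert hq.add hq' using 1
        funext j; simp)
      zero_mem' := subset_closure ⟨0, by
        simpa using rep_fin ∅ (fun j => ((0 : ℤ →₀ ℚ) j : ℝ)) (by simp)⟩
      smul_mem' := h1 }
  have h2 := X_le Y isClosed_closure fun j => subset_closure ⟨Finsupp.single j 1, by
    convert rep_E j using 1
    funext i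
    simp only [Finsupp.single_apply, Pi.single_apply, eq_comm (a := j)]
    split_ifs <;> simp⟩
  have h3 : closure D ⊆ inc '' M := closure_minimal (by
    rintro v ⟨q, hq⟩
    obtain ⟨u, hu⟩ := fin_mem q
    exact ⟨u, h q u hu, hu.uniq hq⟩) (inc.isometry.isClosedEmbedding.isClosedMap M hM)
  refine Set.eq_univ_of_forall fun u => ?_
  obtain ⟨v, hv, e⟩ := h3 (h2 u.2)
  rwa [← inc.injective e]

theorem result : ∃ (B : Type) (_ : NormedAddCommGroup B) (_ : NormedSpace ℝ B)
    (_ : CompleteSpace B) (T : B →L[ℝ] B),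
    (∃ x : B, ∀ M : Set (WeakSpace ℝ B), IsSeqClosed M →
      (∀ n : ℕ, toWeakSpace ℝ B ((T ^ n) x) ∈ M) → M = Set.univ) ∧
    ¬ ∃ x : B, Dense (Set.range fun n : ℕ => (T ^ n) x) := by
  refine ⟨XX, inferInstance, inferInstance, inferInstance, TX, ?_, not_hc⟩
  obtain ⟨y, h1, h2, h3, h4⟩ := walk
  have h : Walk y := ⟨h1, h2, h3⟩
  obtain ⟨x, hx, hx'⟩ := h.exists_x
  refine ⟨⟨x, hx⟩, fun M hM hO => ?_⟩
  have key' := dense_q (toWeakSpaceCLM ℝ XX ⁻¹' M)
    (hM.preimage (toWeakSpaceCLM ℝ XX).continuous.seqContinuous).isClosed fun q u hu => ?_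
  · refine Set.eq_univ_of_forall fun v => ?_
    obtain ⟨w, rfl⟩ := (toWeakSpaceCLM_bijective (𝕜 := ℝ) (E := XX)).2 v
    exact Set.eq_univ_iff_forall.mp key' w
  obtain ⟨C, hC⟩ : ∃ C : ℝ, ∀ j, |(q j : ℝ)| ≤ C := by
    refine ⟨∑ j ∈ q.support, |(q j : ℝ)|, fun j => ?_⟩
    by_cases hj : j ∈ q.support
    · exact Finset.single_le_sum (f := fun j => |(q j : ℝ)|) (fun _ _ => abs_nonneg _) hj
    · rw [Finsupp.notMem_support_iff.mp hj]; simpa using Finset.sum_nonneg fun _ _ => abs_nonneg _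
  have hC0 : 0 ≤ C := (abs_nonneg _).trans (hC 0)
  let w : ℕ → XX := fun k => if ∀ j, y (k + 1) j = q j then
    (TX ^ (N (k + 1)).toNat) ⟨x, hx⟩ - u else 0
  have hw := weak_null w (2 + (C + 1)) fun n φ => by
    refine le_trans (Finset.sum_le_sum (g := fun k => (1 / 2 : ℝ) ^ k +
      if N k < key φ ∧ key φ ≤ N (k + 1) then C + 1 else 0) fun k _ => ?_) ?_
    · simp only [w]
      by_cases hk : ∀ j, y (k + 1) j = q j
      · rw [if_pos hk, map_sub, inc_pow, show inc ⟨x, hx⟩ = x from rfl, ((hx'.Tpow _).sub hu) φ]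
        have e : ((fun j => xx y (j - (N (k + 1)).toNat)) - fun j => (q j : ℝ))
            = fut y (k + 1) + past y (k + 1) := by
          funext j
          have := N_ge (k + 1)
          simp only [Pi.sub_apply, Pi.add_apply, fut, past, hk,
            Int.toNat_of_nonneg (show 0 ≤ N (k + 1) by omega)]
          split_ifs <;> simp
        rw [e, ι_add]
        have a1 := h.fut_le (k + 1) φ
        have a2 := h.past_le k (C := C) (fun j => hk j ▸ hC j) φ
        have a3 : (1 / 2 : ℝ) ^ (k + 1) ≤ (1 / 2) ^ k :=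
          pow_le_pow_of_le_one (by norm_num) (by norm_num) (by omega)
        linarith [abs_add_le (ι (fut y (k + 1)) φ) (ι (past y (k + 1)) φ)]
      · rw [if_neg hk, map_zero]
        simp only [BoundedContinuousFunction.coe_zero, Pi.zero_apply, abs_zero]
        split_ifs <;> positivity
    · rw [Finset.sum_add_distrib]
      exact add_le_add (sum_geometric_two_le n) (sum_window n _ (by linarith))
  obtain ⟨s, hs, hs'⟩ := extraction_of_frequently_atTop (P := fun k => ∀ j, y (k + 1) j = q j)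
    (frequently_atTop.mpr fun n => by
      obtain ⟨m, hm, hm'⟩ := h4 q (n + 1)
      exact ⟨m - 1, by omega, by rwa [Nat.sub_add_cancel (by omega)]⟩)
  refine hM (fun l => hO (N (s l + 1)).toNat) ?_
  refine (Topology.IsInducing.induced _).tendsto_nhds_iff.mpr (tendsto_pi_nhds.mpr fun f => ?_)
  have := ((hw f).comp hs.tendsto_atTop).add_const (f u)
  rw [zero_add] at this
  refine this.congr fun l => ?_
  simp only [Function.comp, w, if_pos (hs' l), map_sub, sub_add_cancel]
  rfl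

end Pool.Agent.Results.MP_faea85_an.Exists
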